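import Pool.Agent.X174.WinFamC
import Pool.Agent.X134.Win.NF
import Pool.Agent.Results.MP_160b6c_nt.PellInFamilies

/-! All families over all number fields near thin sequences. -/

set_option autoImplicit false

open Polynomial Filter Topology MeasureTheory

namespace Pool.Agent.X35.PN

lemma log_pow_le' (E : ℕ) {ε : ℝ} (hε : 0 < ε) : ∃ C : ℝ, 0 ≤ C ∧ ∀ T : ℝ, 1 ≤ T → (1 + Real.log T) ^ E ≤ C * T ^ ε := by
  set ε' : ℝ := ε / (E + 1) with hε'
  have hε'0 : 0 < ε' := by positivity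
  refine ⟨(1 + 1 / ε') ^ E, by positivity, fun T hT => ?_⟩
  have hT0 : 0 ≤ T := by linarith
  have h1 : Real.log T ≤ T ^ ε' / ε' := Real.log_le_rpow_div hT0 hε'0
  have h2 : 1 ≤ T ^ ε' := Real.one_le_rpow hT hε'0.le
  have h3 : 1 + Real.log T ≤ (1 + 1 / ε') * T ^ ε' := by
    have : (1 + 1 / ε') * T ^ ε' = T ^ ε' + T ^ ε' / ε' := by ring
    rw [this]
    linarith
  have h4 : 0 ≤ Real.log T := Real.log_nonneg hT
  calc (1 + Real.log T) ^ E ≤ ((1 + 1 / ε') * T ^ ε') ^ E := pow_le_pow_left₀ (by positivity) h3 _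
    _ = (1 + 1 / ε') ^ E * T ^ (ε' * E) := by rw [mul_pow, ← Real.rpow_natCast (T ^ ε'), ← Real.rpow_mul hT0]
    _ ≤ (1 + 1 / ε') ^ E * T ^ ε := by
        apply mul_le_mul_of_nonneg_left _ (by positivity)
        apply Real.rpow_le_rpow_of_exponent_le hT
        rw [hε', div_mul_eq_mul_div, div_le_iff₀ (by positivity)]
        nlinarith


theorem nearC {κ : Type} [Fintype κ] (e : ℕ) {ι : Type} [Countable ι] (Bs : ι → Set (κ → ℤ))
    (hB : ∀ q : ι, ∃ C : ℝ, 0 ≤ C ∧ ∃ E : ℕ, ∀ T : ℝ, 1 ≤ T →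
      ({σ : κ → ℤ | (∀ j, |(σ j : ℝ)| ≤ T) ∧ σ ∈ Bs q}).Finite ∧
      (({σ : κ → ℤ | (∀ j, |(σ j : ℝ)| ≤ T) ∧ σ ∈ Bs q}).ncard : ℝ) ≤ C * (1 + Real.log T) ^ E * T ^ e)
    {v : ℕ → ℝ} {τ ρ : ℝ} (hv1 : ∀ i, 1 ≤ v i) (hτ : 0 ≤ τ) (hv : Pool.Agent.Y854.GM.ExpLe v τ) (hρ : ρ < 1) :
    ∃ E : Set (κ → ℝ), dimH E ≤ ENNReal.ofReal ((e + τ) / (1 - ρ)) ∧ ∀ α : κ → ℝ, α ∉ E →
      ∀ q : ι, ∀ c : ℝ, ∃ i₀ : ℕ, ∀ i : ℕ, i₀ ≤ i → ∀ σ : κ → ℤ,
        (∀ j, |(σ j : ℝ) - α j * v i| ≤ c * (v i) ^ ρ) → σ ∉ Bs q := by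
  have h1ρ : 0 < 1 - ρ := by linarith
  have key : ∀ (k : ℕ) (q : ι), ∃ E : Set (κ → ℝ),
      dimH E ≤ ENNReal.ofReal ((e + 1 / ((k : ℝ) + 1) + τ) / (1 - ρ)) ∧ ∀ α : κ → ℝ, α ∉ E →
      ∀ c : ℝ, ∃ i₀ : ℕ, ∀ i : ℕ, i₀ ≤ i → ∀ σ : κ → ℤ,
        (∀ j, |(σ j : ℝ) - α j * v i| ≤ c * (v i) ^ ρ) → σ ∉ Bs q := by
    intro k q
    obtain ⟨C, hC, E0, hc⟩ := hB q
    obtain ⟨C', hC', hlog⟩ := log_pow_le' E0 (show (0 : ℝ) < 1 / ((k : ℝ) + 1) by positivity)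
    obtain ⟨E, hE1, hE2⟩ := Pool.Agent.X174.winFamC (κ := κ) (Q := κ → ℤ)
      (fun σ j => (σ j : ℝ)) (fun T => {σ : κ → ℤ | (∀ j, |(σ j : ℝ)| ≤ T) ∧ σ ∈ Bs q})
      (s := e + 1 / ((k : ℝ) + 1)) (C := C * C') (by positivity)
      (fun T hT => by
        refine ⟨(hc T hT).1, (hc T hT).2.trans ?_⟩
        have hT0 : 0 < T := by linarith
        have h1 := mul_le_mul_of_nonneg_left (hlog T hT) hC
        calc C * (1 + Real.log T) ^ E0 * T ^ e ≤ C * (C' * T ^ (1 / ((k : ℝ) + 1))) * T ^ e :=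
              mul_le_mul_of_nonneg_right h1 (by positivity)
          _ = C * C' * T ^ ((e : ℝ) + 1 / ((k : ℝ) + 1)) := by
              rw [Real.rpow_add hT0, Real.rpow_natCast]
              ring)
      hv1 hτ hv hρ
    refine ⟨E, hE1, fun α hα c => ?_⟩
    obtain ⟨R, hR, hRc⟩ := Pool.Agent.X174.le_of_cubeC α c
    obtain ⟨i₀, hi₀⟩ := hE2 α hα R hR c
    refine ⟨i₀, fun i hi σ hσ hσB => hi₀ i hi σ hσ ⟨fun j => ?_, hσB⟩⟩
    exact hRc (fun j => (σ j : ℝ)) (v i) ρ (hv1 i) hρ hσ j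
  choose Es h1 h2 using key
  refine ⟨⋂ k, ⋃ q, Es k q, ?_, fun α hα q c => ?_⟩
  · have h3 : ∀ k : ℕ, dimH (⋂ k, ⋃ q, Es k q) ≤ ENNReal.ofReal ((e + 1 / ((k : ℝ) + 1) + τ) / (1 - ρ)) := fun k => by
      refine (dimH_mono (Set.iInter_subset _ k)).trans ?_
      rw [dimH_iUnion]
      exact iSup_le fun q => h1 k q
    have h4 : Tendsto (fun k : ℕ => ENNReal.ofReal ((e + 1 / ((k : ℝ) + 1) + τ) / (1 - ρ))) atTop
        (𝓝 (ENNReal.ofReal ((e + 0 + τ) / (1 - ρ)))) := by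
      apply ENNReal.tendsto_ofReal
      exact ((tendsto_const_nhds.add tendsto_one_div_add_atTop_nhds_zero_nat).add_const _).div_const _
    rw [add_zero] at h4
    exact ge_of_tendsto' h4 h3
  · obtain ⟨k, hk⟩ : ∃ k, α ∉ ⋃ q, Es k q := by
      by_contra hcon
      push Not at hcon
      exact hα (Set.mem_iInter.2 hcon)
    exact h2 k q α (fun h => hk (Set.mem_iUnion.2 ⟨q, h⟩)) c


open Pool.Agent.Results.MP_160b6c_nt.PellInFamilies (member Pellian PellSolvable SizeLe)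

/-- the point with the coordinates `∑ i, s (j, i) w_i` -/
noncomputable def point {F : Type} [Field F] {q k : ℕ} (w : Fin k → F) (s : Fin q × Fin k → ℤ) : Fin q → F :=
  fun j => ∑ i, (s (j, i) : F) * w i

lemma point_inj {F : Type} [Field F] [CharZero F] {q k : ℕ} {w : Fin k → F} (hw : LinearIndependent ℤ w) :
    Function.Injective (point (q := q) w) := by
  intro s t hst
  ext ⟨j, i⟩
  have h1 := congrFun hst j
  simp only [point] at h1
  have h2 : ∑ i, (s (j, i) - t (j, i)) • w i = 0 := by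
    rw [← sub_eq_zero, ← Finset.sum_sub_distrib] at h1
    rw [← h1]
    refine Finset.sum_congr rfl fun i _ => ?_
    rw [zsmul_eq_mul]
    push_cast
    ring
  have h3 := Fintype.linearIndependent_iff.1 hw (fun i => s (j, i) - t (j, i)) h2 i
  exact sub_eq_zero.1 h3

theorem count_nf {F : Type} [Field F] [NumberField F] {q k m : ℕ} (hm : 1 ≤ m) (D : (MvPolynomial (Fin q) F)[X])
    (hD : D.natDegree ≤ 2 * m) {A : Type} [Field A] [IsAlgClosed A] [Algebra F A] (u₀ : Fin q → A)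
    (h0 : (member D u₀).natDegree = 2 * m) (h1 : ¬ IsSquare (member D u₀)) (h2 : ¬ PellSolvable (member D u₀))
    {w : Fin k → F} (hw : LinearIndependent ℤ w) (hwi : ∀ i, IsIntegral ℤ (w i)) :
    ∃ C : ℝ, 0 ≤ C ∧ ∃ E : ℕ, ∀ T : ℝ, 1 ≤ T →
      ({s : Fin q × Fin k → ℤ | (∀ j, |(s j : ℝ)| ≤ T) ∧ s ∈ {s | Pellian (member D (point w s))}}).Finite ∧
      (({s : Fin q × Fin k → ℤ | (∀ j, |(s j : ℝ)| ≤ T) ∧ s ∈ {s | Pellian (member D (point w s))}}).ncard : ℝ) ≤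
        C * (1 + Real.log T) ^ E * T ^ (k * (q - 1)) := by
  classical
  obtain ⟨C, c, hC⟩ := (Pool.Agent.Results.MP_160b6c_nt.PellInFamilies.result F q m hm D hD A u₀ h0 h1 h2
    (Module.finrank ℚ F)).2
  set M : ℝ := ∑ φ : F →+* ℂ, ∑ i, ‖φ (w i)‖ with hM
  have hM0 : 0 ≤ M := Finset.sum_nonneg fun φ _ => Finset.sum_nonneg fun i _ => norm_nonneg _
  set L : ℝ := Real.log (2 + M) + 1 with hL
  have hL0 : 0 ≤ L := by
    have := Real.log_nonneg (show 1 ≤ 2 + M by linarith)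
    linarith
  refine ⟨|C| * L ^ c * 3 ^ (k * (q - 1)), by positivity, c, fun T hT => ?_⟩
  have hlogT : 0 ≤ Real.log T := Real.log_nonneg hT
  set S : Finset ℤ := Finset.Icc (-⌊T⌋) ⌊T⌋ with hS
  have hfl : 1 ≤ ⌊T⌋ := Int.le_floor.2 (by exact_mod_cast hT)
  have hScard : (S.card : ℝ) ≤ 3 * T := by
    have h1 : (S.card : ℤ) = 2 * ⌊T⌋ + 1 := by
      rw [hS, Int.card_Icc, Int.toNat_of_nonneg (by omega)]
      ring
    have h2 : (S.card : ℝ) = 2 * ⌊T⌋ + 1 := by exact_mod_cast h1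
    rw [h2]
    have := Int.floor_le T
    linarith
  have hmemS : ∀ a : ℤ, |(a : ℝ)| ≤ T → a ∈ S := by
    intro a ha
    have h1 := abs_le.1 ha
    rw [hS, Finset.mem_Icc]
    refine ⟨?_, Int.le_floor.2 h1.2⟩
    have h2 : -a ≤ ⌊T⌋ := Int.le_floor.2 (by push_cast; linarith [h1.1])
    omega
  set TF : Finset F := (Fintype.piFinset fun _ : Fin k => S).image (fun a => ∑ i, (a i : F) * w i) with hTF
  have hTFcard : (TF.card : ℝ) ≤ (3 * T) ^ k := by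
    have h3 : TF.card ≤ S.card ^ k := by
      refine Finset.card_image_le.trans ?_
      rw [Fintype.card_piFinset_const]
    calc (TF.card : ℝ) ≤ (S.card : ℝ) ^ k := by exact_mod_cast h3
      _ ≤ (3 * T) ^ k := pow_le_pow_left₀ (Nat.cast_nonneg _) hScard k
  set H : ℝ := (2 + M) * T with hH
  have hH2 : 2 ≤ H := by
    rw [hH]
    nlinarith
  have hsize : ∀ u : Fin q → F, (∀ j, u j ∈ TF) → SizeLe H u := by
    intro u hu
    refine ⟨1, le_rfl, by push_cast; linarith, fun j => ?_, fun φ j => ?_⟩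
    · obtain ⟨a, _, ha⟩ := Finset.mem_image.1 (hu j)
      rw [Nat.cast_one, one_mul, ← ha]
      exact IsIntegral.sum _ fun i _ => (isIntegral_algebraMap (R := ℤ) (x := a i)).mul (hwi i)
    · obtain ⟨a, ha1, ha⟩ := Finset.mem_image.1 (hu j)
      rw [← ha, map_sum]
      have h3 : ∀ i, ‖φ ((a i : F) * w i)‖ ≤ T * ‖φ (w i)‖ := fun i => by
        rw [map_mul, map_intCast, norm_mul, Complex.norm_intCast]
        refine mul_le_mul_of_nonneg_right ?_ (norm_nonneg _)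
        have h4 := Finset.mem_Icc.1 (Fintype.mem_piFinset.1 ha1 i)
        rw [abs_le]
        have h5 := Int.floor_le T
        have h6 : ((-⌊T⌋ : ℤ) : ℝ) ≤ (a i : ℝ) := by exact_mod_cast h4.1
        have h7 : ((a i : ℤ) : ℝ) ≤ ((⌊T⌋ : ℤ) : ℝ) := by exact_mod_cast h4.2
        push_cast at h6
        constructor <;> linarith
      calc ‖∑ i, φ ((a i : F) * w i)‖ ≤ ∑ i, T * ‖φ (w i)‖ := norm_sum_le_of_le _ fun i _ => h3 i
        _ = T * ∑ i, ‖φ (w i)‖ := by rw [Finset.mul_sum]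
        _ ≤ T * M := by
            apply mul_le_mul_of_nonneg_left _ (by linarith)
            exact Finset.single_le_sum (f := fun φ : F →+* ℂ => ∑ i, ‖φ (w i)‖)
              (fun φ _ => Finset.sum_nonneg fun i _ => norm_nonneg _) (Finset.mem_univ φ)
        _ ≤ H := by rw [hH]; nlinarith
  have hcount := hC H hH2 F le_rfl TF hsize
  have hmem : ∀ s ∈ {s : Fin q × Fin k → ℤ | (∀ j, |(s j : ℝ)| ≤ T) ∧ s ∈ {s | Pellian (member D (point w s))}},
      point w s ∈ {u : Fin q → F | (∀ j, u j ∈ TF) ∧ Pellian (member D u)} := by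
    rintro s ⟨hs1, hs2⟩
    refine ⟨fun j => Finset.mem_image.2 ⟨fun i => s (j, i), ?_, rfl⟩, hs2⟩
    rw [Fintype.mem_piFinset]
    exact fun i => hmemS _ (hs1 (j, i))
  have hfinU : {u : Fin q → F | (∀ j, u j ∈ TF) ∧ Pellian (member D u)}.Finite := by
    refine (Finset.finite_toSet (Fintype.piFinset fun _ : Fin q => TF)).subset fun u hu => ?_
    rw [Finset.mem_coe, Fintype.mem_piFinset]
    exact hu.1
  have hfin : ({s : Fin q × Fin k → ℤ | (∀ j, |(s j : ℝ)| ≤ T) ∧ s ∈ {s | Pellian (member D (point w s))}}).Finite :=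
    Set.Finite.of_injOn (f := point w) (fun s hs => hmem s hs) (point_inj hw).injOn hfinU
  refine ⟨hfin, ?_⟩
  have hle : ({s : Fin q × Fin k → ℤ | (∀ j, |(s j : ℝ)| ≤ T) ∧ s ∈ {s | Pellian (member D (point w s))}}).ncard ≤
      ({u : Fin q → F | (∀ j, u j ∈ TF) ∧ Pellian (member D u)}).ncard :=
    Set.ncard_le_ncard_of_injOn (point w) hmem (point_inj hw).injOn hfinU
  have hlogH : 0 ≤ Real.log H := Real.log_nonneg (by linarith)
  have hlog : Real.log H ≤ L * (1 + Real.log T) := by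
    rw [hH, Real.log_mul (by linarith) (by linarith), hL]
    have h3 := Real.log_nonneg (show 1 ≤ 2 + M by linarith)
    nlinarith [mul_nonneg h3 hlogT]
  calc _ ≤ ((({u : Fin q → F | (∀ j, u j ∈ TF) ∧ Pellian (member D u)}).ncard : ℕ) : ℝ) := by exact_mod_cast hle
    _ ≤ C * Real.log H ^ c * (TF.card : ℝ) ^ (q - 1) := hcount
    _ ≤ |C| * (L * (1 + Real.log T)) ^ c * ((3 * T) ^ k) ^ (q - 1) := by
        have h4 : C ≤ |C| := le_abs_self C
        gcongr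
    _ = |C| * L ^ c * 3 ^ (k * (q - 1)) * (1 + Real.log T) ^ c * T ^ (k * (q - 1)) := by
        rw [mul_pow, ← pow_mul, mul_pow]
        ring

end Pool.Agent.X35.PN
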